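import Mathlib

namespace MP61673a

open Finset

/-- number of pairs `(a,b)` in `P × Q` with `a + 2b < x` -/
def cc (P Q : Finset ℤ) (x : ℤ) : ℤ := ∑ a ∈ P, ∑ b ∈ Q, if a + 2 * b < x then 1 else 0

/-- number of pairs `(a,b)` in `P × P` with `a - 2b ≥ j` -/
def nn (P : Finset ℤ) (j : ℤ) : ℤ := ∑ a ∈ P, ∑ b ∈ P, if j ≤ a - 2 * b then 1 else 0

/-- number of pairs `(a,b)` in `P × Q` with `a + 2b = x` -/
def rr (P Q : Finset ℤ) (x : ℤ) : ℤ := ∑ a ∈ P, ∑ b ∈ Q, if a + 2 * b = x then 1 else 0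

/-- the waste function -/
def ww (P Q : Finset ℤ) (e x : ℤ) : ℤ := cc P Q x + nn Q (2 * e + 2 - x) - x

lemma cc_nonneg (P Q : Finset ℤ) (x : ℤ) : 0 ≤ cc P Q x :=
  sum_nonneg fun _ _ => sum_nonneg fun _ _ => by split_ifs <;> norm_num

lemma nn_nonneg (P : Finset ℤ) (x : ℤ) : 0 ≤ nn P x :=
  sum_nonneg fun _ _ => sum_nonneg fun _ _ => by split_ifs <;> norm_num

lemma rr_nonneg (P Q : Finset ℤ) (x : ℤ) : 0 ≤ rr P Q x :=
  sum_nonneg fun _ _ => sum_nonneg fun _ _ => by split_ifs <;> norm_num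

lemma cc_mono (P Q : Finset ℤ) {x y : ℤ} (h : x ≤ y) : cc P Q x ≤ cc P Q y := by
  unfold cc
  refine sum_le_sum fun a _ => sum_le_sum fun b _ => ?_
  split_ifs <;> omega

lemma cc_succ (P Q : Finset ℤ) (x : ℤ) : cc P Q (x + 1) = cc P Q x + rr P Q x := by
  unfold cc rr
  rw [← sum_add_distrib]
  refine sum_congr rfl fun a _ => ?_
  rw [← sum_add_distrib]
  refine sum_congr rfl fun b _ => ?_
  split_ifs <;> omega

lemma card_mul (P Q : Finset ℤ) : ((P.card : ℤ) * Q.card) = ∑ _a ∈ P, ∑ _b ∈ Q, (1 : ℤ) := by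
  simp

lemma cc_le (P Q : Finset ℤ) (x : ℤ) : cc P Q x ≤ (P.card : ℤ) * Q.card := by
  rw [card_mul]
  unfold cc
  refine sum_le_sum fun a _ => sum_le_sum fun b _ => ?_
  split_ifs <;> norm_num

lemma card_sub_cc (P Q : Finset ℤ) (x : ℤ) :
    (P.card : ℤ) * Q.card - cc P Q x = ∑ a ∈ P, ∑ b ∈ Q, if x ≤ a + 2 * b then 1 else 0 := by
  rw [card_mul]
  unfold cc
  rw [← sum_sub_distrib]
  refine sum_congr rfl fun a _ => ?_
  rw [← sum_sub_distrib]
  refine sum_congr rfl fun b _ => ?_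
  split_ifs <;> omega

lemma nn_succ (P : Finset ℤ) (j : ℤ) :
    nn P j = nn P (j + 1) + ∑ a ∈ P, ∑ b ∈ P, if a - 2 * b = j then 1 else 0 := by
  unfold nn
  rw [← sum_add_distrib]
  refine sum_congr rfl fun a _ => ?_
  rw [← sum_add_distrib]
  refine sum_congr rfl fun b _ => ?_
  split_ifs <;> omega

/-- the coverage hypothesis: the label `s` is realised -/
def Cov (P Q : Finset ℤ) (e s : ℤ) : Prop :=
  (∃ a ∈ P, ∃ b ∈ Q, a + 2 * b = s) ∨ (∃ q ∈ Q, ∃ b ∈ Q, q - 2 * b = 2 * e + 1 - s)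

lemma one_le_sum_ind {P Q : Finset ℤ} {c : ℤ → ℤ → Prop} [∀ a b, Decidable (c a b)]
    (h : ∃ a ∈ P, ∃ b ∈ Q, c a b) : (1 : ℤ) ≤ ∑ a ∈ P, ∑ b ∈ Q, if c a b then 1 else 0 := by
  obtain ⟨a, ha, b, hb, hc⟩ := h
  calc (1 : ℤ) = if c a b then 1 else 0 := by simp [hc]
    _ ≤ ∑ b ∈ Q, if c a b then (1 : ℤ) else 0 :=
        single_le_sum (f := fun b => if c a b then (1 : ℤ) else 0)
          (fun i _ => by split_ifs <;> norm_num) hb
    _ ≤ ∑ a ∈ P, ∑ b ∈ Q, if c a b then (1 : ℤ) else 0 :=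
        single_le_sum (f := fun a => ∑ b ∈ Q, if c a b then (1 : ℤ) else 0)
          (fun i _ => sum_nonneg fun _ _ => by split_ifs <;> norm_num) ha

lemma ww_succ {P Q : Finset ℤ} {e x : ℤ} (h : Cov P Q e x) : ww P Q e x ≤ ww P Q e (x + 1) := by
  unfold ww
  have h1 := cc_succ P Q x
  have h2 := nn_succ Q (2 * e + 2 - (x + 1))
  have e1 : 2 * e + 2 - (x + 1) + 1 = 2 * e + 2 - x := by ring
  rw [e1] at h2
  rw [h1, h2]
  have h3 : (0 : ℤ) ≤ rr P Q x := rr_nonneg P Q x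
  have h4 : (0 : ℤ) ≤ ∑ a ∈ Q, ∑ b ∈ Q, if a - 2 * b = 2 * e + 2 - (x + 1) then (1 : ℤ) else 0 :=
    sum_nonneg fun _ _ => sum_nonneg fun _ _ => by split_ifs <;> norm_num
  rcases h with h | h
  · have h5 : (1 : ℤ) ≤ rr P Q x := one_le_sum_ind h
    linarith
  · have h5 : (1 : ℤ) ≤ ∑ a ∈ Q, ∑ b ∈ Q, if a - 2 * b = 2 * e + 2 - (x + 1) then (1 : ℤ) else 0 := by
      apply one_le_sum_ind
      obtain ⟨q, hq, b, hb, hqb⟩ := h
      exact ⟨q, hq, b, hb, by linarith⟩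
    linarith

lemma ww_mono {P Q : Finset ℤ} {e : ℤ} (hc : ∀ s, 0 ≤ s → s ≤ 2 * e → Cov P Q e s)
    {x y : ℤ} (hx : 0 ≤ x) (hxy : x ≤ y) (hy : y ≤ 2 * e + 1) : ww P Q e x ≤ ww P Q e y := by
  induction y, hxy using Int.leInduction with
  | base => exact le_refl _
  | succ n hn ih =>
    have := ih (by linarith)
    exact this.trans (ww_succ (hc n (by linarith) (by linarith)))

lemma cc_of_nonpos {P Q : Finset ℤ} (hP : ∀ p ∈ P, 0 ≤ p) (hQ : ∀ p ∈ Q, 0 ≤ p) {x : ℤ}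
    (hx : x ≤ 0) : cc P Q x = 0 := by
  unfold cc
  refine sum_eq_zero fun a ha => sum_eq_zero fun b hb => ?_
  have := hP a ha
  have := hQ b hb
  rw [if_neg]
  linarith

lemma nn_of_large {Q : Finset ℤ} {e : ℤ} (hQ : ∀ p ∈ Q, 0 ≤ p ∧ p ≤ e) {x : ℤ}
    (hx : e < x) : nn Q x = 0 := by
  unfold nn
  refine sum_eq_zero fun a ha => sum_eq_zero fun b hb => ?_
  have := hQ a ha
  have := hQ b hb
  rw [if_neg]
  omega

lemma ww_small {P Q : Finset ℤ} {e : ℤ} (hQ : ∀ p ∈ Q, 0 ≤ p ∧ p ≤ e) {x : ℤ}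
    (hx : x ≤ e + 1) : ww P Q e x = cc P Q x - x := by
  unfold ww
  rw [nn_of_large hQ (by linarith)]
  ring

lemma ww_zero {P Q : Finset ℤ} {e : ℤ} (he : 0 ≤ e) (hP : ∀ p ∈ P, 0 ≤ p ∧ p ≤ e)
    (hQ : ∀ p ∈ Q, 0 ≤ p ∧ p ≤ e) : ww P Q e 0 = 0 := by
  rw [ww_small hQ (by linarith), cc_of_nonpos (fun p hp => (hP p hp).1) (fun p hp => (hQ p hp).1) le_rfl]
  norm_num

/-- number of pairs with label at least `x` -/
def dd (P Q : Finset ℤ) (x : ℤ) : ℤ := (P.card : ℤ) * Q.card - cc P Q x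

lemma dd_anti (P Q : Finset ℤ) {x y : ℤ} (h : x ≤ y) : dd P Q y ≤ dd P Q x := by
  unfold dd
  have := cc_mono P Q h
  linarith

lemma dd_nonneg (P Q : Finset ℤ) (x : ℤ) : 0 ≤ dd P Q x := by
  unfold dd
  have := cc_le P Q x
  linarith

/-- regrouping 1 -/
lemma regroup1 (P Q : Finset ℤ) :
    ∑ a ∈ P, ∑ a1 ∈ P, cc P Q ((a - 2 * a1 + 1) / 2)
      = ∑ a1 ∈ P, ∑ q ∈ Q, nn P (2 * (a1 + 2 * q) + 1) := by
  unfold cc nn
  rw [sum_comm]
  refine sum_congr rfl fun a1 _ => ?_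
  -- lhs : ∑ a, ∑ p, ∑ q ; rhs : ∑ q, ∑ a, ∑ p
  rw [sum_comm' (s := Q) (t := fun _ => P) (t' := P) (s' := fun _ => Q) (by intros; tauto)]
  refine sum_congr rfl fun a _ => ?_
  rw [sum_comm]
  refine sum_congr rfl fun q _ => ?_
  refine sum_congr rfl fun p _ => ?_
  congr 1
  apply propext
  constructor <;> intro h <;> omega

/-- regrouping 2 -/
lemma regroup2 {P Q : Finset ℤ} (K : ℤ) :
    ∑ a ∈ P, ∑ a1 ∈ P, (if 2 * a1 < a then nn Q (K + 1 - (a - 2 * a1 + 1) / 2) else 0)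
      ≤ ∑ a1 ∈ P, ∑ q ∈ Q, dd P Q (2 * K + 1 + 2 * (a1 + 2 * q)) := by
  rw [sum_comm]
  refine sum_le_sum fun a1 _ => ?_
  have h1 : ∑ q ∈ Q, dd P Q (2 * K + 1 + 2 * (a1 + 2 * q))
      = ∑ a ∈ P, ∑ b ∈ Q, ∑ q ∈ Q, if 2 * K + 1 + 2 * (a1 + 2 * q) ≤ a + 2 * b then (1:ℤ) else 0 := by
    unfold dd
    simp_rw [card_sub_cc]
    rw [sum_comm]
    refine sum_congr rfl fun a _ => ?_
    rw [sum_comm]
  rw [h1]
  refine sum_le_sum fun a _ => ?_
  split_ifs with h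
  · unfold nn
    refine sum_le_sum fun b _ => sum_le_sum fun q _ => ?_
    split_ifs <;> omega
  · exact sum_nonneg fun _ _ => sum_nonneg fun _ _ => by split_ifs <;> norm_num


lemma rr_eq {P Q : Finset ℤ} {e : ℤ} (hQ : ∀ p ∈ Q, 0 ≤ p ∧ p ≤ e) {g : ℤ} (hg : g ≤ e) :
    rr P Q g = 1 + (ww P Q e (g + 1) - ww P Q e g) := by
  have := cc_succ P Q g
  rw [ww_small hQ (by linarith), ww_small hQ (by linarith)]
  linarith

/-- number of pairs `(a,b)` in `P × Q` with label in `[x,y)` -/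
lemma cc_diff (P Q : Finset ℤ) {x y : ℤ} (h : x ≤ y) :
    ∑ a ∈ P, ∑ b ∈ Q, (if x ≤ a + 2 * b ∧ a + 2 * b < y then (1 : ℤ) else 0)
      = cc P Q y - cc P Q x := by
  unfold cc
  rw [← sum_sub_distrib]
  refine sum_congr rfl fun a _ => ?_
  rw [← sum_sub_distrib]
  refine sum_congr rfl fun b _ => ?_
  split_ifs <;> omega

/-- summing a function of the label over the pairs with label in `[0,T]` -/
lemma sum_label {P Q : Finset ℤ} (hP : ∀ p ∈ P, 0 ≤ p) (hQ : ∀ p ∈ Q, 0 ≤ p) (T : ℤ)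
    (f : ℤ → ℤ) :
    ∑ a ∈ P, ∑ b ∈ Q, (if a + 2 * b ≤ T then f (a + 2 * b) else 0)
      = ∑ g ∈ Icc 0 T, rr P Q g * f g := by
  have h1 : ∀ a ∈ P, ∀ b ∈ Q, (if a + 2 * b ≤ T then f (a + 2 * b) else 0)
      = ∑ g ∈ Icc 0 T, (if a + 2 * b = g then 1 else 0) * f g := by
    intro a ha b hb
    have := hP a ha
    have := hQ b hb
    split_ifs with h
    · rw [sum_eq_single (a + 2 * b)]
      · simp
      · intro g _ hg
        rw [if_neg (Ne.symm hg)]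
        simp
      · intro hg
        exfalso
        apply hg
        rw [mem_Icc]
        constructor <;> linarith
    · symm
      refine sum_eq_zero fun g hg => ?_
      rw [mem_Icc] at hg
      rw [if_neg]
      · simp
      · intro h2
        apply h
        linarith
  rw [sum_congr rfl fun a ha => sum_congr rfl fun b hb => h1 a ha b hb]
  have h2 : ∀ a ∈ P, ∑ b ∈ Q, ∑ g ∈ Icc 0 T, (if a + 2 * b = g then (1:ℤ) else 0) * f g
      = ∑ g ∈ Icc 0 T, ∑ b ∈ Q, (if a + 2 * b = g then (1:ℤ) else 0) * f g := fun a _ => sum_comm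
  rw [sum_congr rfl h2, sum_comm]
  refine sum_congr rfl fun g _ => ?_
  unfold rr
  rw [sum_mul]
  refine sum_congr rfl fun a _ => ?_
  rw [sum_mul]

/-- the one-sided key inequality -/
lemma key {P Q : Finset ℤ} {e m : ℤ} (he : 0 ≤ e) (hP : ∀ p ∈ P, 0 ≤ p ∧ p ≤ e)
    (hQ : ∀ p ∈ Q, 0 ≤ p ∧ p ≤ e) (hR : ∀ s, 0 ≤ s → s ≤ 2 * e → Cov P Q e s)
    (hL : ∀ s, 0 ≤ s → s ≤ 2 * e → Cov Q P e s)
    (hm : m = (P.card : ℤ) * Q.card) (hm4 : 4 * m ≤ 6 * e + 4) :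
    0 ≤ ∑ g ∈ Icc 0 (m - (e + 1)),
        (dd P Q (2 * (2 * e + 1 - m) + 1 + 2 * g) - nn P (2 * g + 1))
      + (m - (e + 1)) * ww P Q e (e + 1) := by
  set T := m - (e + 1) with hT
  set K := 2 * e + 1 - m with hK
  set nR := dd P Q (2 * e + 3) with hnR
  have hP0 : ∀ p ∈ P, 0 ≤ p := fun p hp => (hP p hp).1
  have hQ0 : ∀ p ∈ Q, 0 ≤ p := fun p hp => (hQ p hp).1
  have wmono : ∀ x y, 0 ≤ x → x ≤ y → y ≤ 2 * e + 1 → ww P Q e x ≤ ww P Q e y :=
    fun x y h1 h2 h3 => ww_mono hR h1 h2 h3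
  have w0 : ww P Q e 0 = 0 := ww_zero he hP hQ
  have dle : dd P Q (e + 1) = T - ww P Q e (e + 1) := by
    rw [ww_small hQ le_rfl]
    unfold dd
    rw [← hm]
    linarith
  have we1 : 0 ≤ ww P Q e (e + 1) := by
    rw [← w0]
    exact wmono 0 (e + 1) le_rfl (by linarith) (by linarith)
  have hT0 : 0 ≤ T := by
    have := dd_nonneg P Q (e + 1)
    linarith
  have hnRT : nR ≤ T := by
    have := dd_anti P Q (show e + 1 ≤ 2 * e + 3 by linarith)
    linarith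
  have hnR0 : 0 ≤ nR := dd_nonneg _ _ _
  -- lower bound for nn P 1
  have hN1 : K ≤ nn P 1 := by
    have h1 : ww Q P e 0 ≤ ww Q P e (2 * e + 1) := ww_mono hL le_rfl (by linarith) le_rfl
    rw [ww_zero he hQ hP] at h1
    unfold ww at h1
    have h2 := cc_le Q P (2 * e + 1)
    have h3 : (2 * e + 2 - (2 * e + 1) : ℤ) = 1 := by ring
    rw [h3] at h1
    have h4 : (Q.card : ℤ) * P.card = m := by rw [hm]; ring
    rw [h4] at h2
    linarith
  -- the lower bound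
  have low : nR * nn P 1 ≤ ∑ a1 ∈ P, ∑ q ∈ Q,
      (dd P Q (2 * K + 1 + 2 * (a1 + 2 * q)) - nn P (2 * (a1 + 2 * q) + 1)) := by
    have e1 : ∑ a1 ∈ P, ∑ q ∈ Q,
      (dd P Q (2 * K + 1 + 2 * (a1 + 2 * q)) - nn P (2 * (a1 + 2 * q) + 1))
      = ∑ a1 ∈ P, ∑ q ∈ Q, dd P Q (2 * K + 1 + 2 * (a1 + 2 * q))
        - ∑ a1 ∈ P, ∑ q ∈ Q, nn P (2 * (a1 + 2 * q) + 1) := by
      rw [← sum_sub_distrib]
      refine sum_congr rfl fun a _ => ?_
      rw [← sum_sub_distrib]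
    rw [e1, ← regroup1 P Q]
    have e2 := regroup2 (P := P) (Q := Q) K
    have e3 : nR * nn P 1 ≤
        ∑ a ∈ P, ∑ a1 ∈ P, (if 2 * a1 < a then nn Q (K + 1 - (a - 2 * a1 + 1) / 2) else 0)
        - ∑ a ∈ P, ∑ a1 ∈ P, cc P Q ((a - 2 * a1 + 1) / 2) := by
      unfold nn
      rw [← sum_sub_distrib, mul_sum]
      refine sum_le_sum fun a ha => ?_
      rw [← sum_sub_distrib, mul_sum]
      refine sum_le_sum fun a1 ha1 => ?_
      by_cases h : 2 * a1 < a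
      · rw [if_pos h, if_pos (by linarith)]
        set y := (a - 2 * a1 + 1) / 2 with hy
        have hpa := hP a ha
        have hpa1 := hP a1 ha1
        have hy0 : 1 ≤ y := by omega
        have hye : 2 * y ≤ e + 1 := by omega
        have hmy : m + y ≤ 2 * e + 1 := by omega
        have hm0 : 0 ≤ m := by linarith
        have h1 : ww P Q e y ≤ ww P Q e (m + y) := wmono _ _ (by linarith) (by linarith) hmy
        rw [ww_small hQ (show y ≤ e + 1 by linarith)] at h1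
        unfold ww at h1
        have h2 : 2 * e + 2 - (m + y) = K + 1 - y := by rw [hK]; ring
        rw [h2] at h1
        have h3 : nR ≤ dd P Q (m + y) := dd_anti P Q (by linarith)
        have h4 : dd P Q (m + y) = m - cc P Q (m + y) := by unfold dd; rw [hm]
        change nR * 1 ≤ nn Q (K + 1 - y) - cc P Q y
        linarith
      · rw [if_neg h, if_neg (by linarith), cc_of_nonpos hP0 hQ0 (by omega)]
        simp
    linarith
  -- the upper bound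
  have up : ∑ a1 ∈ P, ∑ q ∈ Q,
      (dd P Q (2 * K + 1 + 2 * (a1 + 2 * q)) - nn P (2 * (a1 + 2 * q) + 1))
      ≤ ∑ g ∈ Icc 0 T, (dd P Q (2 * K + 1 + 2 * g) - nn P (2 * g + 1)) + T * ww P Q e (T + 1)
        + nR * (nn P 1 + (ww P Q e (e + 1) - ww P Q e (T + 1))) := by
    set B : ℤ → ℤ := fun g => dd P Q (2 * K + 1 + 2 * g) - nn P (2 * g + 1) with hB
    have s1 : ∑ a1 ∈ P, ∑ q ∈ Q, B (a1 + 2 * q)
        = ∑ a1 ∈ P, ∑ q ∈ Q, (if a1 + 2 * q ≤ T then B (a1 + 2 * q) else 0)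
          + ∑ a1 ∈ P, ∑ q ∈ Q, (if a1 + 2 * q ≤ T then 0 else B (a1 + 2 * q)) := by
      rw [← sum_add_distrib]
      refine sum_congr rfl fun a _ => ?_
      rw [← sum_add_distrib]
      refine sum_congr rfl fun b _ => ?_
      split_ifs <;> simp
    have hTe : 2 * T ≤ e := by omega
    have hBT : ∀ g, 0 ≤ g → B g ≤ T := by
      intro g hg
      have h1 : dd P Q (2 * K + 1 + 2 * g) ≤ dd P Q (e + 1) := dd_anti P Q (by omega)
      have h2 := nn_nonneg P (2 * g + 1)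
      simp only [hB]
      linarith
    have s2 : ∑ a1 ∈ P, ∑ q ∈ Q, (if a1 + 2 * q ≤ T then B (a1 + 2 * q) else 0)
        ≤ ∑ g ∈ Icc 0 T, B g + T * ww P Q e (T + 1) := by
      rw [sum_label hP0 hQ0]
      have h1 : ∀ g ∈ Icc 0 T, rr P Q g * B g ≤ B g + T * (ww P Q e (g + 1) - ww P Q e g) := by
        intro g hg
        rw [mem_Icc] at hg
        rw [rr_eq hQ (show g ≤ e by linarith)]
        have h2 : ww P Q e g ≤ ww P Q e (g + 1) := wmono _ _ hg.1 (by linarith) (by linarith)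
        have h3 := hBT g hg.1
        nlinarith
      refine (sum_le_sum h1).trans ?_
      rw [sum_add_distrib, ← mul_sum]
      have h4 : ∑ g ∈ Icc 0 T, (ww P Q e (g + 1) - ww P Q e g) = ww P Q e (T + 1) - ww P Q e 0 := by
        have h5 : ∀ n : ℕ, ∑ g ∈ Icc (0:ℤ) n, (ww P Q e (g + 1) - ww P Q e g)
            = ww P Q e (n + 1) - ww P Q e 0 := by
          intro n
          induction n with
          | zero => simp
          | succ k ih =>
            have h6 : Icc (0:ℤ) ((k + 1 : ℕ) : ℤ) = insert ((k : ℤ) + 1) (Icc (0:ℤ) (k : ℤ)) := by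
              ext z
              rw [mem_insert, mem_Icc, mem_Icc]
              push_cast
              omega
            rw [h6, sum_insert (by rw [mem_Icc]; omega), ih]
            push_cast
            ring
        have h7 := h5 T.toNat
        rw [Int.toNat_of_nonneg hT0] at h7
        exact h7
      rw [h4, w0]
      linarith
    have s3 : ∑ a1 ∈ P, ∑ q ∈ Q, (if a1 + 2 * q ≤ T then 0 else B (a1 + 2 * q))
        ≤ nR * (nn P 1 + (ww P Q e (e + 1) - ww P Q e (T + 1))) := by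
      have h1 : ∑ a1 ∈ P, ∑ q ∈ Q, (if a1 + 2 * q ≤ T then 0 else B (a1 + 2 * q))
          ≤ ∑ a1 ∈ P, ∑ q ∈ Q, ∑ a ∈ P, ∑ b ∈ Q,
            (if T < a1 + 2 * q ∧ 2 * K + 1 + 2 * (a1 + 2 * q) ≤ a + 2 * b then (1:ℤ) else 0) := by
        refine sum_le_sum fun a1 _ => sum_le_sum fun q _ => ?_
        split_ifs with h
        · exact sum_nonneg fun _ _ => sum_nonneg fun _ _ => by split_ifs <;> norm_num
        · have h2 := nn_nonneg P (2 * (a1 + 2 * q) + 1)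
          have h3 : dd P Q (2 * K + 1 + 2 * (a1 + 2 * q)) = ∑ a ∈ P, ∑ b ∈ Q,
              if 2 * K + 1 + 2 * (a1 + 2 * q) ≤ a + 2 * b then (1:ℤ) else 0 := card_sub_cc _ _ _
          simp only [hB]
          rw [h3]
          have h4 : ∑ a ∈ P, ∑ b ∈ Q,
              (if T < a1 + 2 * q ∧ 2 * K + 1 + 2 * (a1 + 2 * q) ≤ a + 2 * b then (1:ℤ) else 0)
              = ∑ a ∈ P, ∑ b ∈ Q,
              if 2 * K + 1 + 2 * (a1 + 2 * q) ≤ a + 2 * b then (1:ℤ) else 0 := by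
            refine sum_congr rfl fun a _ => sum_congr rfl fun b _ => ?_
            split_ifs <;> omega
          rw [h4]
          linarith
      refine h1.trans ?_
      have h2 : ∑ a1 ∈ P, ∑ q ∈ Q, ∑ a ∈ P, ∑ b ∈ Q,
            (if T < a1 + 2 * q ∧ 2 * K + 1 + 2 * (a1 + 2 * q) ≤ a + 2 * b then (1:ℤ) else 0)
          = ∑ a ∈ P, ∑ b ∈ Q, ∑ a1 ∈ P, ∑ q ∈ Q,
            (if T < a1 + 2 * q ∧ 2 * K + 1 + 2 * (a1 + 2 * q) ≤ a + 2 * b then (1:ℤ) else 0) := by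
        have e1 : ∀ a1 ∈ P, ∑ q ∈ Q, ∑ a ∈ P, ∑ b ∈ Q,
            (if T < a1 + 2 * q ∧ 2 * K + 1 + 2 * (a1 + 2 * q) ≤ a + 2 * b then (1:ℤ) else 0)
            = ∑ a ∈ P, ∑ b ∈ Q, ∑ q ∈ Q,
            (if T < a1 + 2 * q ∧ 2 * K + 1 + 2 * (a1 + 2 * q) ≤ a + 2 * b then (1:ℤ) else 0) := by
          intro a1 _
          rw [sum_comm]
          refine sum_congr rfl fun a _ => ?_
          rw [sum_comm]
        rw [sum_congr rfl e1, sum_comm]
        refine sum_congr rfl fun a _ => ?_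
        rw [sum_comm]
      rw [h2]
      have h3 : nR = ∑ a ∈ P, ∑ b ∈ Q, if 2 * e + 3 ≤ a + 2 * b then (1:ℤ) else 0 :=
        card_sub_cc _ _ _
      rw [h3, sum_mul]
      refine sum_le_sum fun a ha => ?_
      rw [sum_mul]
      refine sum_le_sum fun b hb => ?_
      have hpa := hP a ha
      have hqb := hQ b hb
      split_ifs with h
      · set z := T + (a + 2 * b - (2 * e + 1)) / 2 with hz
        have hze : z ≤ e := by omega
        have hzT : T + 1 ≤ z + 1 := by omega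
        have h4 : ∑ a1 ∈ P, ∑ q ∈ Q,
            (if T < a1 + 2 * q ∧ 2 * K + 1 + 2 * (a1 + 2 * q) ≤ a + 2 * b then (1:ℤ) else 0)
            = ∑ a1 ∈ P, ∑ q ∈ Q,
            (if T + 1 ≤ a1 + 2 * q ∧ a1 + 2 * q < z + 1 then (1:ℤ) else 0) := by
          refine sum_congr rfl fun a1 _ => sum_congr rfl fun q _ => ?_
          split_ifs <;> omega
        rw [h4, cc_diff P Q hzT]
        have h5 : ww P Q e (z + 1) ≤ ww P Q e (e + 1) := wmono _ _ (by linarith) (by linarith) (by linarith)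
        rw [ww_small hQ (show z + 1 ≤ e + 1 by linarith)] at h5
        rw [ww_small hQ (show T + 1 ≤ e + 1 by linarith)]
        have h6 : z - T ≤ nn P 1 := by omega
        linarith
      · refine le_of_eq ?_
        rw [zero_mul]
        refine sum_eq_zero fun a1 _ => sum_eq_zero fun q _ => ?_
        rw [if_neg]
        rintro ⟨h7, h8⟩
        omega
    have s4 : ∑ a1 ∈ P, ∑ q ∈ Q,
      (dd P Q (2 * K + 1 + 2 * (a1 + 2 * q)) - nn P (2 * (a1 + 2 * q) + 1))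
      = ∑ a1 ∈ P, ∑ q ∈ Q, B (a1 + 2 * q) := rfl
    rw [s4, s1]
    linarith
  have h8 : ww P Q e (T + 1) ≤ ww P Q e (e + 1) := by
    apply wmono <;> omega
  nlinarith


lemma sum_reflect (T : ℤ) (f : ℤ → ℤ) :
    ∑ g ∈ Icc 0 T, f (T - g) = ∑ g ∈ Icc 0 T, f g := by
  refine sum_nbij' (fun g => T - g) (fun g => T - g) ?_ ?_ ?_ ?_ ?_
  · intro g hg; rw [mem_Icc] at hg ⊢; omega
  · intro g hg; rw [mem_Icc] at hg ⊢; omega
  · intro g _; ring
  · intro g _; ring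
  · intro g _; rfl

/-- The product inequality: if both families of labels are covered then `4 |P| |Q| ≥ 3D+1`,
`D = 2e+1`. -/
theorem product_bound {P Q : Finset ℤ} {e : ℤ} (he : 0 ≤ e) (hP : ∀ p ∈ P, 0 ≤ p ∧ p ≤ e)
    (hQ : ∀ p ∈ Q, 0 ≤ p ∧ p ≤ e) (hR : ∀ s, 0 ≤ s → s ≤ 2 * e → Cov P Q e s)
    (hL : ∀ s, 0 ≤ s → s ≤ 2 * e → Cov Q P e s) :
    3 * (2 * e + 1) + 1 ≤ 4 * ((P.card : ℤ) * Q.card) := by
  by_contra hcon
  push Not at hcon
  set m : ℤ := (P.card : ℤ) * Q.card with hm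
  have hm' : m = (Q.card : ℤ) * P.card := by rw [hm]; ring
  have k1 := key he hP hQ hR hL hm (by linarith)
  have k2 := key he hQ hP hL hR hm' (by linarith)
  set T := m - (e + 1) with hT
  set wR := ww P Q e (e + 1) with hwR
  set wL := ww Q P e (e + 1) with hwL
  have wR0 : 0 ≤ wR := by
    rw [hwR, ← ww_zero he hP hQ]
    exact ww_mono hR le_rfl (by linarith) (by linarith)
  have wL0 : 0 ≤ wL := by
    rw [hwL, ← ww_zero he hQ hP]
    exact ww_mono hL le_rfl (by linarith) (by linarith)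
  have hT0 : 0 ≤ T := by
    have h1 := cc_le P Q (e + 1)
    rw [hwR, ww_small hQ le_rfl] at wR0
    linarith
  have est : ∀ P Q : Finset ℤ, (∀ p ∈ P, 0 ≤ p ∧ p ≤ e) → (∀ p ∈ Q, 0 ≤ p ∧ p ≤ e) →
      (∀ s, 0 ≤ s → s ≤ 2 * e → Cov P Q e s) → m = (P.card : ℤ) * Q.card → ∀ g ∈ Icc 0 T,
      dd P Q (2 * (2 * e + 1 - m) + 1 + 2 * g)
        ≤ m - (2 * (2 * e + 1 - m) + 1 + 2 * g) - ww P Q e (e + 1) + nn Q (2 * (T - g) + 1) := by
    intro P Q hP hQ hR hm g hg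
    rw [mem_Icc] at hg
    have h1 : ww P Q e (e + 1) ≤ ww P Q e (2 * (2 * e + 1 - m) + 1 + 2 * g) :=
      ww_mono hR (by linarith) (by linarith) (by linarith)
    have h2 : ww P Q e (2 * (2 * e + 1 - m) + 1 + 2 * g)
        = cc P Q (2 * (2 * e + 1 - m) + 1 + 2 * g) + nn Q (2 * (T - g) + 1)
          - (2 * (2 * e + 1 - m) + 1 + 2 * g) := by
      unfold ww
      congr 3
      rw [hT]
      ring
    unfold dd
    rw [← hm]
    linarith
  have t1 : ∑ g ∈ Icc 0 T, (dd P Q (2 * (2 * e + 1 - m) + 1 + 2 * g) - nn P (2 * g + 1))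
      ≤ ∑ g ∈ Icc 0 T, (m - (2 * (2 * e + 1 - m) + 1 + 2 * g) - wR + nn Q (2 * (T - g) + 1)
        - nn P (2 * g + 1)) :=
    sum_le_sum fun g hg => by linarith [est P Q hP hQ hR hm g hg]
  have t2 : ∑ g ∈ Icc 0 T, (dd Q P (2 * (2 * e + 1 - m) + 1 + 2 * g) - nn Q (2 * g + 1))
      ≤ ∑ g ∈ Icc 0 T, (m - (2 * (2 * e + 1 - m) + 1 + 2 * g) - wL + nn P (2 * (T - g) + 1)
        - nn Q (2 * g + 1)) :=
    sum_le_sum fun g hg => by linarith [est Q P hQ hP hL hm' g hg]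
  have r1 := sum_reflect T (fun g => nn P (2 * g + 1))
  have r2 := sum_reflect T (fun g => nn Q (2 * g + 1))
  have hc : (((T + 1 - 0).toNat : ℕ) : ℤ) = T + 1 := by
    rw [Int.toNat_of_nonneg (by linarith)]; ring
  have r3 : ∑ g ∈ Icc 0 T, 2 * g = (T + 1) * T := by
    have h1 := sum_reflect T (fun g => g)
    rw [sum_sub_distrib, sum_const, Int.card_Icc, nsmul_eq_mul, hc] at h1
    rw [← mul_sum]
    linarith
  simp only [sum_add_distrib, sum_sub_distrib, sum_const, Int.card_Icc,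
    nsmul_eq_mul, r3, hc] at t1 t2
  simp only [sum_sub_distrib] at k1 k2
  have c1 : ∑ x ∈ Icc 0 T, (2 * (2 * e + 1 - m)) = (T + 1) * (2 * (2 * e + 1 - m)) := by
    rw [sum_const, Int.card_Icc, nsmul_eq_mul, hc]
  have final : 0 ≤ 2 * ((T + 1) * (m - (2 * (2 * e + 1 - m) + 1)) - (T + 1) * T)
      - (T + 1) * (wR + wL) + T * (wR + wL) := by
    linarith
  have h9 : 2 * ((T + 1) * (m - (2 * (2 * e + 1 - m) + 1)) - (T + 1) * T)
      = (T + 1) * (4 * m - (3 * (2 * e + 1) + 1)) := by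
    rw [hT]; ring
  rw [h9] at final
  nlinarith

end MP61673a

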