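import Mathlib
import Pool.Agent.Lib.MP_61673a_co.Core

set_option autoImplicit false

open Finset

namespace MP61673a

/-- every integer `x` with `-D ≤ x < 0` or `D < x ≤ 2 D` is `2 b - a` with `a, b ∈ A` -/
def Outer (A : Finset ℤ) (D : ℤ) : Prop :=
  ∀ x : ℤ, (-D ≤ x ∧ x < 0) ∨ (D < x ∧ x ≤ 2 * D) → ∃ a ∈ A, ∃ b ∈ A, x = 2 * b - a

lemma odd_case {A : Finset ℤ} {e : ℤ} (he : 0 ≤ e) (hA : ∀ a ∈ A, 0 ≤ a ∧ a ≤ 2 * e + 1)
    (h : Outer A (2 * e + 1)) : 3 * (2 * e + 1) + 1 ≤ (A.card : ℤ) ^ 2 := by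
  classical
  set P := A.filter (fun a => a ≤ e) with hP
  set Q := (A.filter (fun a => ¬ a ≤ e)).image (fun a => 2 * e + 1 - a) with hQ
  have memP : ∀ a ∈ A, a ≤ e → a ∈ P := fun a ha h => by
    rw [hP, mem_filter]; exact ⟨ha, h⟩
  have memQ : ∀ a ∈ A, ¬ a ≤ e → 2 * e + 1 - a ∈ Q := fun a ha h => by
    rw [hQ, mem_image]; exact ⟨a, by rw [mem_filter]; exact ⟨ha, h⟩, rfl⟩
  have hcQ : Q.card = (A.filter (fun a => ¬ a ≤ e)).card := by
    rw [hQ]
    apply card_image_of_injective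
    intro a b hab
    simp only at hab
    omega
  have hcard : (A.card : ℤ) = P.card + Q.card := by
    rw [hcQ, hP]
    exact_mod_cast (card_filter_add_card_filter_not (s := A) (fun a => a ≤ e)).symm
  have bP : ∀ p ∈ P, 0 ≤ p ∧ p ≤ e := by
    intro p hp
    rw [hP, mem_filter] at hp
    exact ⟨(hA p hp.1).1, hp.2⟩
  have bQ : ∀ p ∈ Q, 0 ≤ p ∧ p ≤ e := by
    intro p hp
    rw [hQ, mem_image] at hp
    obtain ⟨a, ha, rfl⟩ := hp
    rw [mem_filter] at ha
    have := hA a ha.1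
    omega
  have hR : ∀ s, 0 ≤ s → s ≤ 2 * e → Cov P Q e s := by
    intro s h0 h1
    obtain ⟨a, ha, b, hb, hx⟩ := h (2 * (2 * e + 1) - s) (Or.inr ⟨by omega, by omega⟩)
    have hAa := hA a ha
    have hAb := hA b hb
    have hbe : ¬ b ≤ e := by omega
    by_cases hae : a ≤ e
    · exact Or.inl ⟨a, memP a ha hae, 2 * e + 1 - b, memQ b hb hbe, by omega⟩
    · exact Or.inr ⟨2 * e + 1 - a, memQ a ha hae, 2 * e + 1 - b, memQ b hb hbe, by omega⟩
  have hL : ∀ s, 0 ≤ s → s ≤ 2 * e → Cov Q P e s := by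
    intro s h0 h1
    obtain ⟨a, ha, b, hb, hx⟩ := h (-(2 * e + 1) + s) (Or.inl ⟨by omega, by omega⟩)
    have hAa := hA a ha
    have hAb := hA b hb
    have hbe : b ≤ e := by omega
    by_cases hae : a ≤ e
    · exact Or.inr ⟨a, memP a ha hae, b, memP b hb hbe, by omega⟩
    · exact Or.inl ⟨2 * e + 1 - a, memQ a ha hae, b, memP b hb hbe, by omega⟩
  have key := product_bound he bP bQ hR hL
  rw [hcard]
  nlinarith [sq_nonneg ((P.card : ℤ) - Q.card)]

/-- narrow hull, set version -/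
theorem outer_bound {A : Finset ℤ} {D : ℤ} (hD : 0 ≤ D) (h0 : (0 : ℤ) ∈ A) (h1 : D ∈ A)
    (hA : ∀ a ∈ A, 0 ≤ a ∧ a ≤ D) (h : Outer A D) : 3 * D + 1 ≤ (A.card : ℤ) ^ 2 := by
  classical
  rcases Int.even_or_odd' D with ⟨e, rfl | rfl⟩
  · -- even: pass to `4 A + {0, 1}`
    set B := A.image (fun a => 4 * a) ∪ A.image (fun a => 4 * a + 1) with hB
    have memB : ∀ a ∈ A, ∀ i : ℤ, i = 0 ∨ i = 1 → 4 * a + i ∈ B := by
      intro a ha i hi
      rw [hB, mem_union, mem_image, mem_image]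
      rcases hi with rfl | rfl
      · exact Or.inl ⟨a, ha, by ring⟩
      · exact Or.inr ⟨a, ha, rfl⟩
    have hcard : B.card = 2 * A.card := by
      rw [hB, card_union_of_disjoint, card_image_of_injective, card_image_of_injective]
      · ring
      · intro a b hab
        simp only at hab
        omega
      · intro a b hab
        simp only at hab
        omega
      · rw [disjoint_left]
        intro x hx hx'
        rw [mem_image] at hx hx'
        obtain ⟨a, _, rfl⟩ := hx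
        obtain ⟨b, _, hb⟩ := hx'
        omega
    have bB : ∀ a ∈ B, 0 ≤ a ∧ a ≤ 2 * (4 * e) + 1 := by
      intro a ha
      rw [hB, mem_union, mem_image, mem_image] at ha
      rcases ha with ⟨c, hc, rfl⟩ | ⟨c, hc, rfl⟩ <;> have := hA c hc <;> omega
    have hcov : ∀ y : ℤ, -(2 * e) ≤ y → y ≤ 2 * (2 * e) → (y ≤ 0 ∨ 2 * e ≤ y) →
        ∃ a ∈ A, ∃ b ∈ A, y = 2 * b - a := by
      intro y hy1 hy2 hy3
      rcases hy3 with hy | hy
      · rcases eq_or_lt_of_le hy with rfl | hy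
        · exact ⟨0, h0, 0, h0, by norm_num⟩
        · exact h y (Or.inl ⟨hy1, hy⟩)
      · rcases eq_or_lt_of_le hy with hy' | hy'
        · exact ⟨2 * e, h1, 2 * e, h1, by omega⟩
        · exact h y (Or.inr ⟨hy', hy2⟩)
    have hout : Outer B (2 * (4 * e) + 1) := by
      intro x hx
      have hy : ∃ y i j : ℤ, x = 4 * y + (2 * i - j) ∧ (i = 0 ∨ i = 1) ∧ (j = 0 ∨ j = 1) ∧
          4 * y - 1 ≤ x ∧ x ≤ 4 * y + 2 := by
        have h4 : (x + 1) % 4 = 0 ∨ (x + 1) % 4 = 1 ∨ (x + 1) % 4 = 2 ∨ (x + 1) % 4 = 3 := by omega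
        rcases h4 with h4 | h4 | h4 | h4
        · exact ⟨(x + 1) / 4, 0, 1, by omega, Or.inl rfl, Or.inr rfl, by omega, by omega⟩
        · exact ⟨(x + 1) / 4, 0, 0, by omega, Or.inl rfl, Or.inl rfl, by omega, by omega⟩
        · exact ⟨(x + 1) / 4, 1, 1, by omega, Or.inr rfl, Or.inr rfl, by omega, by omega⟩
        · exact ⟨(x + 1) / 4, 1, 0, by omega, Or.inr rfl, Or.inl rfl, by omega, by omega⟩
      obtain ⟨y, i, j, hxy, hi, hj, hb1, hb2⟩ := hy
      obtain ⟨a, ha, b, hb, hab⟩ := hcov y (by omega) (by omega) (by omega)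
      exact ⟨4 * a + j, memB a ha j hj, 4 * b + i, memB b hb i hi, by rw [hxy, hab]; ring⟩
    have key := odd_case (by omega) bB hout
    rw [hcard] at key
    push_cast at key
    nlinarith
  · exact odd_case (by omega) hA h

end MP61673a
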